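import Mathlib

set_option autoImplicit false

open Finset

namespace Pool.Agent.Helper208.Rainbow

section LLL

variable {κ : Type*} [Fintype κ] [DecidableEq κ] {α : Type*} [Fintype α] [DecidableEq α]

/-- the event `A` depends only on the coordinates in `S` -/
def DepOn (A : Finset (κ → α)) (S : Finset κ) : Prop :=
  ∀ ω ω' : κ → α, (∀ k ∈ S, ω k = ω' k) → (ω ∈ A ↔ ω' ∈ A)

lemma DepOn.mono {A : Finset (κ → α)} {S T : Finset κ} (h : DepOn A S) (hST : S ⊆ T) :
    DepOn A T := fun ω ω' hk => h ω ω' (fun k hk' => hk k (hST hk'))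

lemma DepOn.inter {A B : Finset (κ → α)} {S T : Finset κ} (hA : DepOn A S) (hB : DepOn B T) :
    DepOn (A ∩ B) (S ∪ T) := by
  intro ω ω' hk
  rw [mem_inter, mem_inter, hA ω ω' (fun k h => hk k (mem_union_left _ h)),
    hB ω ω' (fun k h => hk k (mem_union_right _ h))]

/-- independence of events on disjoint sets of coordinates -/
lemma indep {A B : Finset (κ → α)} {S T : Finset κ} (hA : DepOn A S) (hB : DepOn B T)
    (hST : Disjoint S T) :
    (A ∩ B).card * Fintype.card (κ → α) = A.card * B.card := by
  classical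
  let mix : (κ → α) → (κ → α) → (κ → α) := fun a b k => if k ∈ S then a k else b k
  have hmm : ∀ a b, mix (mix a b) (mix b a) = a := by
    intro a b; funext k; by_cases hk : k ∈ S <;> simp [mix, hk]
  have hmA : ∀ a b, (mix a b ∈ A ↔ a ∈ A) := by
    intro a b
    apply hA
    intro k hk
    simp [mix, hk]
  have hmB : ∀ a b, (mix a b ∈ B ↔ b ∈ B) := by
    intro a b
    apply hB
    intro k hk
    have : k ∉ S := fun h => (disjoint_left.mp hST) h hk
    simp [mix, this]
  rw [← card_univ (α := κ → α), ← card_product, ← card_product]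
  apply card_nbij' (fun p => (mix p.1 p.2, mix p.2 p.1)) (fun p => (mix p.1 p.2, mix p.2 p.1))
  · rintro ⟨a, b⟩ h
    simp only [coe_product, Set.mem_prod, mem_coe, mem_inter, mem_univ, and_true] at h ⊢
    exact ⟨(hmA a b).mpr h.1, (hmB b a).mpr h.2⟩
  · rintro ⟨a, b⟩ h
    simp only [coe_product, Set.mem_prod, mem_coe, mem_inter, mem_univ, and_true] at h ⊢
    exact ⟨(hmA a b).mpr h.1, (hmB a b).mpr h.2⟩
  · rintro ⟨a, b⟩ _
    simp [hmm]
  · rintro ⟨a, b⟩ _
    simp [hmm]

/-- no event of `T` happens -/
def GG {ι : Type*} (A : ι → Finset (κ → α)) (T : Finset ι) : Finset (κ → α) :=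
  univ.filter (fun ω => ∀ j ∈ T, ω ∉ A j)

lemma GG_dep {ι : Type*} [DecidableEq ι] (A : ι → Finset (κ → α)) (F : ι → Finset κ)
    (hA : ∀ i, DepOn (A i) (F i)) (T : Finset ι) : DepOn (GG A T) (T.biUnion F) := by
  intro ω ω' hk
  unfold GG
  simp only [mem_filter, mem_univ, true_and]
  constructor
  · intro h j hj hω
    exact h j hj ((hA j ω ω' (fun k hk' => hk k (mem_biUnion.mpr ⟨j, hj, hk'⟩))).mpr hω)
  · intro h j hj hω
    exact h j hj ((hA j ω ω' (fun k hk' => hk k (mem_biUnion.mpr ⟨j, hj, hk'⟩))).mp hω)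

lemma GG_insert {ι : Type*} [DecidableEq ι] (A : ι → Finset (κ → α)) (T : Finset ι) (j : ι) :
    (GG A (insert j T)).card + (A j ∩ GG A T).card = (GG A T).card := by
  have h1 : GG A (insert j T) = GG A T \ A j := by
    ext ω
    simp only [GG, mem_filter, mem_univ, true_and, mem_insert, forall_eq_or_imp, mem_sdiff]
    tauto
  rw [h1, inter_comm]
  exact card_sdiff_add_card_inter _ _

/-- the asymmetric local lemma -/
theorem lll {ι : Type*} [DecidableEq ι] (I : Finset ι) (A : ι → Finset (κ → α))
    (F : ι → Finset κ) (hA : ∀ i, DepOn (A i) (F i)) (x : ι → ℝ) (hx0 : ∀ i, 0 ≤ x i)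
    (hx1 : ∀ i, x i < 1) [Nonempty (κ → α)]
    (h : ∀ i ∈ I, ((A i).card : ℝ) ≤
      (x i * ∏ j ∈ I.filter (fun j => j ≠ i ∧ ¬ Disjoint (F i) (F j)), (1 - x j)) *
        Fintype.card (κ → α)) :
    ∃ ω : κ → α, ∀ i ∈ I, ω ∉ A i := by
  classical
  have hf0 : ∀ j, 0 ≤ 1 - x j := fun j => by linarith [hx1 j]
  have hf1 : ∀ j, 1 - x j ≤ 1 := fun j => by linarith [hx0 j]
  have hΩ : (0 : ℝ) < Fintype.card (κ → α) := by exact_mod_cast Fintype.card_pos
  -- main claim
  have key : ∀ m : ℕ, ∀ T : Finset ι, T.card = m → T ⊆ I → ∀ i ∈ I, i ∉ T →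
      ((A i ∩ GG A T).card : ℝ) ≤ x i * (GG A T).card := by
    intro m
    induction m using Nat.strong_induction_on with
    | _ m ih =>
      intro T hTm hTI i hi hiT
      set T1 := T.filter (fun j => ¬ Disjoint (F i) (F j)) with hT1
      set T2 := T.filter (fun j => Disjoint (F i) (F j)) with hT2
      have hstep : ∀ U : Finset ι, U ⊆ T1 →
          (∏ j ∈ U, (1 - x j)) * ((GG A T2).card : ℝ) ≤ (GG A (T2 ∪ U)).card := by
        intro U
        induction U using Finset.induction_on with
        | empty => intro _; simp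
        | @insert j U hjU ihU =>
          intro hU
          have hjT1 : j ∈ T1 := hU (mem_insert_self _ _)
          have hUT1 : U ⊆ T1 := fun k hk => hU (mem_insert_of_mem hk)
          have h1 := ihU hUT1
          have hjT : j ∈ T := (mem_filter.mp hjT1).1
          have hj2 : j ∉ T2 ∪ U := by
            rw [mem_union, not_or]
            refine ⟨?_, hjU⟩
            rw [hT2, mem_filter]
            intro hc
            exact (mem_filter.mp hjT1).2 hc.2
          have hsub : T2 ∪ U ⊆ T := union_subset (filter_subset _ _)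
            (fun k hk => (mem_filter.mp (hUT1 hk)).1)
          have hlt : (T2 ∪ U).card < m := by
            rw [← hTm]
            apply card_lt_card
            refine ⟨hsub, fun hc => hj2 (hc hjT)⟩
          have h2 := ih _ hlt (T2 ∪ U) rfl (hsub.trans hTI) j (hTI hjT) hj2
          have h3 := GG_insert A (T2 ∪ U) j
          have h4 : ((GG A (insert j (T2 ∪ U))).card : ℝ) + (A j ∩ GG A (T2 ∪ U)).card =
              (GG A (T2 ∪ U)).card := by exact_mod_cast h3
          rw [prod_insert hjU]
          have h5 : T2 ∪ insert j U = insert j (T2 ∪ U) := by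
            ext k; simp only [mem_union, mem_insert]; tauto
          rw [h5]
          have h6 : (1 - x j) * ((∏ k ∈ U, (1 - x k)) * ((GG A T2).card : ℝ)) ≤
              (1 - x j) * (GG A (T2 ∪ U)).card := mul_le_mul_of_nonneg_left h1 (hf0 j)
          rw [mul_assoc]
          nlinarith
      have hT12 : T2 ∪ T1 = T := by
        rw [hT1, hT2]; exact filter_union_filter_not_eq _ _
      have hA1 := hstep T1 (Subset.refl _)
      rw [hT12] at hA1
      -- upper bound
      have hsub : A i ∩ GG A T ⊆ A i ∩ GG A T2 := by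
        intro ω hω
        rw [mem_inter] at hω ⊢
        refine ⟨hω.1, ?_⟩
        simp only [GG, mem_filter, mem_univ, true_and] at hω ⊢
        exact fun j hj => hω.2 j (mem_filter.mp hj).1
      have hind : (A i ∩ GG A T2).card * Fintype.card (κ → α) = (A i).card * (GG A T2).card := by
        apply indep (hA i) (GG_dep A F hA T2)
        rw [disjoint_biUnion_right]
        intro j hj
        exact (mem_filter.mp hj).2
      have hindR : ((A i ∩ GG A T2).card : ℝ) * Fintype.card (κ → α) =
          (A i).card * (GG A T2).card := by exact_mod_cast hind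
      have hcardle : ((A i ∩ GG A T).card : ℝ) ≤ (A i ∩ GG A T2).card := by
        exact_mod_cast card_le_card hsub
      have hprodle : ∏ j ∈ I.filter (fun j => j ≠ i ∧ ¬ Disjoint (F i) (F j)), (1 - x j) ≤
          ∏ j ∈ T1, (1 - x j) := by
        have hsub2 : T1 ⊆ I.filter (fun j => j ≠ i ∧ ¬ Disjoint (F i) (F j)) := by
          intro j hj
          rw [hT1, mem_filter] at hj
          rw [mem_filter]
          refine ⟨hTI hj.1, ?_, hj.2⟩
          rintro rfl
          exact hiT hj.1
        rw [← prod_sdiff hsub2]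
        have : ∏ j ∈ (I.filter (fun j => j ≠ i ∧ ¬ Disjoint (F i) (F j))) \ T1, (1 - x j) ≤ 1 :=
          prod_le_one (fun j _ => hf0 j) (fun j _ => hf1 j)
        exact mul_le_of_le_one_left (prod_nonneg fun j _ => hf0 j) this
      have hG2 : (0 : ℝ) ≤ (GG A T2).card := by positivity
      have h7 : ((A i ∩ GG A T2).card : ℝ) ≤
          (x i * ∏ j ∈ T1, (1 - x j)) * (GG A T2).card := by
        have h8 : ((A i ∩ GG A T2).card : ℝ) * Fintype.card (κ → α) ≤
            ((x i * ∏ j ∈ T1, (1 - x j)) * (GG A T2).card) * Fintype.card (κ → α) := by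
          rw [hindR]
          calc ((A i).card : ℝ) * (GG A T2).card
              ≤ ((x i * ∏ j ∈ I.filter (fun j => j ≠ i ∧ ¬ Disjoint (F i) (F j)), (1 - x j)) *
                Fintype.card (κ → α)) * (GG A T2).card :=
                mul_le_mul_of_nonneg_right (h i hi) hG2
            _ ≤ ((x i * ∏ j ∈ T1, (1 - x j)) * Fintype.card (κ → α)) * (GG A T2).card := by
                apply mul_le_mul_of_nonneg_right _ hG2
                apply mul_le_mul_of_nonneg_right _ hΩ.le
                exact mul_le_mul_of_nonneg_left hprodle (hx0 i)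
            _ = _ := by ring
        exact le_of_mul_le_mul_right h8 hΩ
      calc ((A i ∩ GG A T).card : ℝ) ≤ (A i ∩ GG A T2).card := hcardle
        _ ≤ (x i * ∏ j ∈ T1, (1 - x j)) * (GG A T2).card := h7
        _ = x i * ((∏ j ∈ T1, (1 - x j)) * (GG A T2).card) := by ring
        _ ≤ x i * (GG A T).card := mul_le_mul_of_nonneg_left hA1 (hx0 i)
  -- conclusion
  have hfin : ∀ U : Finset ι, U ⊆ I →
      (∏ j ∈ U, (1 - x j)) * (Fintype.card (κ → α) : ℝ) ≤ (GG A U).card := by
    intro U
    induction U using Finset.induction_on with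
    | empty =>
      intro _
      simp [GG]
    | @insert j U hjU ihU =>
      intro hU
      have h1 := ihU (fun k hk => hU (mem_insert_of_mem hk))
      have h2 := key _ U rfl (fun k hk => hU (mem_insert_of_mem hk)) j (hU (mem_insert_self _ _)) hjU
      have h3 : ((GG A (insert j U)).card : ℝ) + (A j ∩ GG A U).card = (GG A U).card := by
        exact_mod_cast GG_insert A U j
      rw [prod_insert hjU, mul_assoc]
      have h6 := mul_le_mul_of_nonneg_left h1 (hf0 j)
      nlinarith
  have hpos : (0 : ℝ) < (GG A I).card := by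
    refine lt_of_lt_of_le ?_ (hfin I (Subset.refl _))
    apply mul_pos _ hΩ
    exact prod_pos fun j _ => by linarith [hx1 j]
  have hne : (GG A I).Nonempty := by
    rw [← card_pos]
    exact_mod_cast hpos
  obtain ⟨ω, hω⟩ := hne
  refine ⟨ω, ?_⟩
  simpa [GG] using hω

/-- local lemma with the neighbourhood product replaced by an exponential of sums over the
coordinates -/
theorem lll_exp {ι : Type*} [Fintype ι] [DecidableEq ι] (A : ι → Finset (κ → α))
    (F : ι → Finset κ) (hA : ∀ i, DepOn (A i) (F i)) (x : ι → ℝ) (hx0 : ∀ i, 0 ≤ x i)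
    (hx1 : ∀ i, x i ≤ 1 / 2) [Nonempty (κ → α)] (Z : ℝ)
    (hZ : ∀ k : κ, ∑ j ∈ univ.filter (fun j => k ∈ F j), x j ≤ Z)
    (h : ∀ i, ((A i).card : ℝ) ≤
      (x i * Real.exp (-(2 * ((F i).card * Z)))) * Fintype.card (κ → α)) :
    ∃ ω : κ → α, ∀ i, ω ∉ A i := by
  classical
  obtain ⟨ω, hω⟩ := lll univ A F hA x hx0 (fun i => by linarith [hx1 i]) (by
    intro i _
    refine le_trans (h i) ?_
    apply mul_le_mul_of_nonneg_right _ (by positivity)
    apply mul_le_mul_of_nonneg_left _ (hx0 i)
    set N := univ.filter (fun j => j ≠ i ∧ ¬ Disjoint (F i) (F j)) with hN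
    have h1 : ∑ j ∈ N, x j ≤ (F i).card * Z := by
      have hsub : N ⊆ (F i).biUnion (fun k => univ.filter (fun j => k ∈ F j)) := by
        intro j hj
        rw [hN, mem_filter, not_disjoint_iff] at hj
        obtain ⟨-, -, k, hk1, hk2⟩ := hj
        rw [mem_biUnion]
        exact ⟨k, hk1, by simpa using hk2⟩
      calc ∑ j ∈ N, x j ≤ ∑ j ∈ (F i).biUnion (fun k => univ.filter (fun j => k ∈ F j)), x j :=
            sum_le_sum_of_subset_of_nonneg hsub (fun j _ _ => hx0 j)
        _ ≤ ∑ k ∈ F i, ∑ j ∈ univ.filter (fun j => k ∈ F j), x j := by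
            induction F i using Finset.induction_on with
            | empty => simp
            | @insert k S hk ih =>
              rw [biUnion_insert, sum_insert hk]
              refine le_trans ?_ (add_le_add_right ih _)
              rw [← sum_union_inter]
              have : 0 ≤ ∑ j ∈ (univ.filter (fun j => k ∈ F j)) ∩
                  (S.biUnion fun k => univ.filter (fun j => k ∈ F j)), x j :=
                sum_nonneg fun j _ => hx0 j
              linarith
        _ ≤ ∑ k ∈ F i, Z := sum_le_sum fun k _ => hZ k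
        _ = (F i).card * Z := by rw [sum_const, nsmul_eq_mul]
    have h2 : ∀ j, Real.exp (-(2 * x j)) ≤ 1 - x j := by
      intro j
      have h3 := hx0 j
      have h4 := hx1 j
      have h5 : Real.exp (-(2 * x j)) ≤ (1 + 2 * x j)⁻¹ := by
        rw [Real.exp_neg]
        apply inv_anti₀ (by linarith)
        linarith [Real.add_one_le_exp (2 * x j)]
      refine le_trans h5 ?_
      rw [inv_le_comm₀ (by linarith) (by linarith)]
      rw [← one_div, div_le_iff₀ (by linarith)]
      nlinarith
    calc Real.exp (-(2 * ((F i).card * Z))) ≤ Real.exp (∑ j ∈ N, -(2 * x j)) := by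
          apply Real.exp_le_exp.mpr
          rw [sum_neg_distrib, ← mul_sum]
          linarith
      _ = ∏ j ∈ N, Real.exp (-(2 * x j)) := Real.exp_sum _ _
      _ ≤ ∏ j ∈ N, (1 - x j) :=
          prod_le_prod (fun j _ => (Real.exp_pos _).le) (fun j _ => h2 j))
  exact ⟨ω, fun i => hω i (mem_univ i)⟩

/-- one pair of coordinates -/
lemma pair_card (a b : κ) (hab : a ≠ b) (R : Finset (α × α)) :
    (univ.filter (fun ω : κ → α => (ω a, ω b) ∈ R)).card * (Fintype.card α) ^ 2 =
      R.card * Fintype.card (κ → α) := by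
  classical
  rw [pow_two, ← Fintype.card_prod, ← card_univ (α := α × α), ← card_univ (α := κ → α),
    ← card_product, ← card_product]
  apply card_nbij'
    (fun p : (κ → α) × (α × α) => ((p.1 a, p.1 b),
      fun k => if k = a then p.2.1 else if k = b then p.2.2 else p.1 k))
    (fun p : (α × α) × (κ → α) =>
      ((fun k => if k = a then p.1.1 else if k = b then p.1.2 else p.2 k), (p.2 a, p.2 b)))
  · rintro ⟨ω, y⟩ h
    simp only [coe_product, Set.mem_prod, mem_coe, mem_filter, mem_univ, true_and, and_true]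
      at h ⊢
    exact h
  · rintro ⟨y, ω⟩ h
    simp only [coe_product, Set.mem_prod, mem_coe, mem_filter, mem_univ, true_and, and_true]
      at h ⊢
    simpa [hab.symm] using h
  · rintro ⟨ω, y⟩ _
    simp only [Prod.mk.injEq, hab.symm, if_true, if_false, Prod.mk.eta, and_true]
    funext k
    by_cases h1 : k = a
    · simp [h1]
    · by_cases h2 : k = b
      · simp [h2, hab.symm]
      · simp [h1, h2]
  · rintro ⟨y, ω⟩ _
    simp only [Prod.mk.injEq, hab.symm, if_true, if_false, Prod.mk.eta, true_and]
    funext k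
    by_cases h1 : k = a
    · simp [h1]
    · by_cases h2 : k = b
      · simp [h2, hab.symm]
      · simp [h1, h2]

/-- many disjoint pairs of coordinates -/
lemma pairs_card {ι : Type*} [DecidableEq ι] (W : Finset ι) (e e' : ι → κ)
    (hne : ∀ w ∈ W, e w ≠ e' w)
    (hd : ∀ w ∈ W, ∀ w' ∈ W, w ≠ w' → e w ≠ e w' ∧ e w ≠ e' w' ∧ e' w ≠ e w' ∧ e' w ≠ e' w')
    (R : Finset (α × α)) :
    (univ.filter (fun ω : κ → α => ∀ w ∈ W, (ω (e w), ω (e' w)) ∈ R)).card *
      ((Fintype.card α) ^ 2) ^ W.card = R.card ^ W.card * Fintype.card (κ → α) := by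
  classical
  induction W using Finset.induction_on with
  | empty => simp
  | @insert w W hw ih =>
    have ih' := ih (fun w' hw' => hne w' (mem_insert_of_mem hw'))
      (fun w' hw' w'' hw'' => hd w' (mem_insert_of_mem hw') w'' (mem_insert_of_mem hw''))
    set A := univ.filter (fun ω : κ → α => (ω (e w), ω (e' w)) ∈ R) with hA
    set B := univ.filter (fun ω : κ → α => ∀ w ∈ W, (ω (e w), ω (e' w)) ∈ R) with hB
    have hAB : univ.filter (fun ω : κ → α => ∀ w' ∈ insert w W, (ω (e w'), ω (e' w')) ∈ R) =
        A ∩ B := by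
      ext ω
      simp [hA, hB]
    have hAd : DepOn A {e w, e' w} := by
      intro ω ω' h
      rw [hA]
      simp only [mem_filter, mem_univ, true_and]
      rw [h (e w) (by simp), h (e' w) (by simp)]
    have hBd : DepOn B (W.image e ∪ W.image e') := by
      intro ω ω' h
      rw [hB]
      simp only [mem_filter, mem_univ, true_and]
      have h2 : ∀ w ∈ W, ω (e w) = ω' (e w) ∧ ω (e' w) = ω' (e' w) := fun w hw =>
        ⟨h _ (mem_union_left _ (mem_image_of_mem _ hw)),
          h _ (mem_union_right _ (mem_image_of_mem _ hw))⟩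
      constructor
      · intro h3 w hw
        rw [← (h2 w hw).1, ← (h2 w hw).2]; exact h3 w hw
      · intro h3 w hw
        rw [(h2 w hw).1, (h2 w hw).2]; exact h3 w hw
    have hdis : Disjoint ({e w, e' w} : Finset κ) (W.image e ∪ W.image e') := by
      rw [disjoint_left]
      intro k hk hk'
      rw [mem_union, mem_image, mem_image] at hk'
      rw [mem_insert, mem_singleton] at hk
      have hww : ∀ w' ∈ W, w ≠ w' := fun w' hw' h => hw (h ▸ hw')
      rcases hk' with ⟨w', hw', rfl⟩ | ⟨w', hw', rfl⟩
      · have h4 := hd w (mem_insert_self _ _) w' (mem_insert_of_mem hw') (hww w' hw')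
        rcases hk with h | h
        · exact h4.1 h.symm
        · exact h4.2.2.1 h.symm
      · have h4 := hd w (mem_insert_self _ _) w' (mem_insert_of_mem hw') (hww w' hw')
        rcases hk with h | h
        · exact h4.2.1 h.symm
        · exact h4.2.2.2 h.symm
    have hind := indep hAd hBd hdis
    have hpair := pair_card (e w) (e' w) (hne w (mem_insert_self _ _)) R
    rw [← hA] at hpair
    rw [hAB, card_insert_of_notMem hw, pow_succ, pow_succ]
    by_cases hΩ : Fintype.card (κ → α) = 0
    · have : (A ∩ B).card = 0 := by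
        have h1 : (A ∩ B).card ≤ Fintype.card (κ → α) := card_le_univ _
        omega
      rw [this, hΩ]; simp
    · apply Nat.eq_of_mul_eq_mul_right (Nat.pos_of_ne_zero hΩ)
      calc (A ∩ B).card * ((Fintype.card α ^ 2) ^ W.card * Fintype.card α ^ 2) *
            Fintype.card (κ → α)
          = ((A ∩ B).card * Fintype.card (κ → α)) * ((Fintype.card α ^ 2) ^ W.card *
              Fintype.card α ^ 2) := by ring
        _ = (A.card * B.card) * ((Fintype.card α ^ 2) ^ W.card * Fintype.card α ^ 2) := by
            rw [hind]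
        _ = (A.card * Fintype.card α ^ 2) * (B.card * (Fintype.card α ^ 2) ^ W.card) := by ring
        _ = (R.card * Fintype.card (κ → α)) * (R.card ^ W.card * Fintype.card (κ → α)) := by
            rw [hpair, ih']
        _ = _ := by ring

end LLL

end Pool.Agent.Helper208.Rainbow
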