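import Mathlib

set_option autoImplicit false

open Finset

namespace Pool.Agent.Helper208.Rainbow

variable {V : Type*} [Fintype V] [DecidableEq V] (G : SimpleGraph V) [DecidableRel G.Adj]

/-- neighbourhood -/
def nb (u : V) : Finset V := univ.filter (fun w => G.Adj u w)

/-- common neighbours -/
def W (u v : V) : Finset V := univ.filter (fun w => G.Adj u w ∧ G.Adj v w)

def t (u v : V) : ℕ := (W G u v).card

lemma mem_nb {u w : V} : w ∈ nb G u ↔ G.Adj u w := by simp [nb]

lemma W_eq (u v : V) : W G u v = nb G u ∩ nb G v := by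
  ext w; simp [W, nb]

lemma t_comm (u v : V) : t G u v = t G v u := by
  unfold t; rw [W_eq, W_eq, inter_comm]

/-- nonadjacent pairs at `x` with few common neighbours -/
def DD (x : V) (s : ℕ) : Finset V := univ.filter (fun y => y ≠ x ∧ ¬ G.Adj x y ∧ t G x y ≤ s)

variable {G}

lemma compl_union_le (hdeg : ∀ u, Fintype.card V ≤ 2 * (nb G u).card) (u v : V) :
    ((nb G u ∪ nb G v)ᶜ).card ≤ t G u v := by
  have h1 := card_union_add_card_inter (nb G u) (nb G v)
  rw [← W_eq] at h1
  have h2 := hdeg u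
  have h3 := hdeg v
  have h4 := card_compl (nb G u ∪ nb G v)
  have h5 : (nb G u ∪ nb G v).card ≤ Fintype.card V := card_le_univ _
  unfold t
  omega

/-- Hamming distance of neighbourhoods -/
def dl (G : SimpleGraph V) [DecidableRel G.Adj] (u v : V) : ℕ := (symmDiff (nb G u) (nb G v)).card

lemma dl_comm (u v : V) : dl G u v = dl G v u := by
  unfold dl; rw [symmDiff_comm]

lemma dl_triangle (u v w : V) : dl G u w ≤ dl G u v + dl G v w := by
  unfold dl
  refine le_trans (card_le_card ?_) (card_union_le _ _)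
  intro x hx
  simp only [mem_symmDiff, mem_union] at hx ⊢
  tauto

lemma dl_perimeter (u v w : V) : dl G u w + dl G u v + dl G v w ≤ 2 * Fintype.card V := by
  unfold dl
  have h : ∀ A B C : Finset V, (symmDiff A C).card + (symmDiff A B).card + (symmDiff B C).card ≤
      2 * Fintype.card V := by
    intro A B C
    have e : ∀ X : Finset V, X.card = ∑ x : V, if x ∈ X then 1 else 0 := by
      intro X; simp
    rw [e, e, e, ← sum_add_distrib, ← sum_add_distrib, Fintype.card, card_eq_sum_ones, mul_sum]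
    apply sum_le_sum
    intro x _
    simp only [mem_symmDiff]
    by_cases hA : x ∈ A <;> by_cases hB : x ∈ B <;> by_cases hC : x ∈ C <;> simp [hA, hB, hC]
  exact h _ _ _

lemma dl_edge (hdeg : ∀ u, Fintype.card V ≤ 2 * (nb G u).card) {u v : V} {s : ℕ}
    (h : t G u v ≤ s) : Fintype.card V ≤ dl G u v + 2 * s := by
  have h1 := compl_union_le hdeg u v
  have h4 := card_compl (nb G u ∪ nb G v)
  have h5 : (nb G u ∪ nb G v).card ≤ Fintype.card V := card_le_univ _
  have h6 : nb G u ∪ nb G v = symmDiff (nb G u) (nb G v) ∪ (nb G u ∩ nb G v) := by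
    ext x; simp only [mem_union, mem_symmDiff, mem_inter]; tauto
  have h7 : (nb G u ∪ nb G v).card ≤ dl G u v + t G u v := by
    rw [h6]; unfold dl t; rw [W_eq]; exact card_union_le _ _
  omega

/-- the number of pairs at the vertex -/
lemma sum_mixed (Y : Finset V) (m : ℕ) (hY : ∀ y ∈ Y, ∀ y' ∈ Y, (nb G y \ nb G y').card ≤ m) :
    ∑ u, (nb G u ∩ Y).card * (Y.card - (nb G u ∩ Y).card) ≤ m * Y.card ^ 2 := by
  have h1 : ∀ u, Y.card - (nb G u ∩ Y).card = (Y.filter (fun y' => ¬ G.Adj u y')).card := by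
    intro u
    have h2 : nb G u ∩ Y = Y.filter (fun y' => G.Adj u y') := by
      ext x; simp [nb, and_comm]
    have h3 := card_filter_add_card_filter_not (s := Y) (fun y' => G.Adj u y')
    rw [h2]
    omega
  have h2 : ∀ u, (nb G u ∩ Y).card = (Y.filter (fun y' => G.Adj u y')).card := by
    intro u
    congr 1
    ext x; simp [nb, and_comm]
  calc ∑ u, (nb G u ∩ Y).card * (Y.card - (nb G u ∩ Y).card)
      = ∑ u, ∑ y ∈ Y, ∑ y' ∈ Y, (if G.Adj u y ∧ ¬ G.Adj u y' then 1 else 0) := by
        apply sum_congr rfl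
        intro u _
        rw [h1, h2, card_filter, card_filter, sum_mul_sum]
        apply sum_congr rfl
        intro y _
        apply sum_congr rfl
        intro y' _
        by_cases ha : G.Adj u y <;> by_cases hb : G.Adj u y' <;> simp [ha, hb]
    _ = ∑ y ∈ Y, ∑ y' ∈ Y, ∑ u, (if G.Adj u y ∧ ¬ G.Adj u y' then 1 else 0) := by
        rw [sum_comm]
        apply sum_congr rfl
        intro y _
        rw [sum_comm]
    _ = ∑ y ∈ Y, ∑ y' ∈ Y, (nb G y \ nb G y').card := by
        apply sum_congr rfl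
        intro y _
        apply sum_congr rfl
        intro y' _
        rw [← card_filter]
        congr 1
        ext u
        simp [nb, G.adj_comm]
    _ ≤ ∑ y ∈ Y, ∑ y' ∈ Y, m := sum_le_sum fun y hy => sum_le_sum fun y' hy' => hY y hy y' hy'
    _ = m * Y.card ^ 2 := by
        simp only [sum_const, smul_eq_mul]; ring

lemma adj_bounds (hdeg : ∀ u, Fintype.card V ≤ 2 * (nb G u).card) (Y : Finset V) {u v : V} {s : ℕ}
    (h : t G u v ≤ s) :
    (nb G u ∩ Y).card + (nb G v ∩ Y).card ≤ Y.card + s ∧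
      Y.card ≤ (nb G u ∩ Y).card + (nb G v ∩ Y).card + s := by
  constructor
  · have h1 := card_union_add_card_inter (nb G u ∩ Y) (nb G v ∩ Y)
    have h2 : (nb G u ∩ Y ∪ nb G v ∩ Y).card ≤ Y.card := by
      apply card_le_card
      intro x hx
      simp only [mem_union, mem_inter] at hx
      tauto
    have h3 : ((nb G u ∩ Y) ∩ (nb G v ∩ Y)).card ≤ t G u v := by
      unfold t
      rw [W_eq]
      apply card_le_card
      intro x hx
      simp only [mem_inter] at hx ⊢
      tauto
    omega
  · have h1 := compl_union_le hdeg u v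
    have h2 : Y ⊆ (nb G u ∩ Y) ∪ (nb G v ∩ Y) ∪ (nb G u ∪ nb G v)ᶜ := by
      intro x hx
      simp only [mem_union, mem_inter, mem_compl]
      tauto
    have h3 := card_le_card h2
    have h4 := card_union_le ((nb G u ∩ Y) ∪ (nb G v ∩ Y)) ((nb G u ∪ nb G v)ᶜ)
    have h5 := card_union_le (nb G u ∩ Y) (nb G v ∩ Y)
    omega

/-- folded adjacency count -/
def bb (G : SimpleGraph V) [DecidableRel G.Adj] (Y : Finset V) (u : V) : ℕ :=
  min (nb G u ∩ Y).card (Y.card - (nb G u ∩ Y).card)

lemma nbY_le (Y : Finset V) (u : V) : (nb G u ∩ Y).card ≤ Y.card := card_le_card inter_subset_right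

lemma mixed_card (Y : Finset V) (m : ℕ) (hYpos : 0 < Y.card)
    (hY : ∀ y ∈ Y, ∀ y' ∈ Y, (nb G y \ nb G y').card ≤ m) :
    (univ.filter (fun u => Y.card ≤ 3 * bb G Y u)).card ≤ 6 * m := by
  have h := sum_mixed (G := G) Y m hY
  set D := Y.card with hD
  have h1 : ∀ u ∈ univ.filter (fun u => D ≤ 3 * bb G Y u),
      D ^ 2 ≤ 6 * ((nb G u ∩ Y).card * (D - (nb G u ∩ Y).card)) := by
    intro u hu
    simp only [mem_filter, mem_univ, true_and] at hu
    have h2 : (nb G u ∩ Y).card ≤ D := nbY_le Y u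
    unfold bb at hu
    rw [← hD] at hu
    set a := (nb G u ∩ Y).card with ha
    obtain ⟨b, hb⟩ := Nat.exists_eq_add_of_le h2
    have hb' : D - a = b := by omega
    rw [hb'] at hu ⊢
    have h3 : D ≤ 3 * a := by omega
    have h4 : D ≤ 3 * b := by omega
    rcases le_total a b with hab | hab
    · have : D ≤ 2 * b := by omega
      nlinarith
    · have : D ≤ 2 * a := by omega
      nlinarith
  have h2 : (univ.filter (fun u => D ≤ 3 * bb G Y u)).card * D ^ 2 ≤ 6 * (m * D ^ 2) := by
    calc (univ.filter (fun u => D ≤ 3 * bb G Y u)).card * D ^ 2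
        = ∑ u ∈ univ.filter (fun u => D ≤ 3 * bb G Y u), D ^ 2 := by
          rw [sum_const, smul_eq_mul]
      _ ≤ ∑ u ∈ univ.filter (fun u => D ≤ 3 * bb G Y u),
            6 * ((nb G u ∩ Y).card * (D - (nb G u ∩ Y).card)) := sum_le_sum h1
      _ ≤ ∑ u, 6 * ((nb G u ∩ Y).card * (D - (nb G u ∩ Y).card)) :=
          sum_le_sum_of_subset (filter_subset _ _)
      _ = 6 * ∑ u, (nb G u ∩ Y).card * (D - (nb G u ∩ Y).card) := by rw [mul_sum]
      _ ≤ 6 * (m * D ^ 2) := Nat.mul_le_mul_left _ h
  have h3 : 0 < D ^ 2 := by positivity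
  have h4 : (univ.filter (fun u => D ≤ 3 * bb G Y u)).card * D ^ 2 ≤ (6 * m) * D ^ 2 := by
    rw [mul_assoc 6 m]; exact h2
  exact Nat.le_of_mul_le_mul_right h4 h3

lemma sdiff_nb_le (hdeg : ∀ u, Fintype.card V ≤ 2 * (nb G u).card) {x y y' : V} {s : ℕ}
    (h : t G x y ≤ s) (h' : t G x y' ≤ s) : (nb G y \ nb G y').card ≤ 2 * s := by
  have h1 : nb G y \ nb G y' ⊆ (nb G x ∩ nb G y) ∪ (nb G x ∪ nb G y')ᶜ := by
    intro z hz
    simp only [mem_sdiff, mem_union, mem_inter, mem_compl] at hz ⊢
    tauto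
  have h2 := card_le_card h1
  have h3 := card_union_le (nb G x ∩ nb G y) ((nb G x ∪ nb G y')ᶜ)
  have h4 := compl_union_le hdeg x y'
  rw [← W_eq] at h3 h2
  unfold t at h h' h4
  omega

lemma bb_edge (hdeg : ∀ u, Fintype.card V ≤ 2 * (nb G u).card) (Y : Finset V) {u v : V} {s : ℕ}
    (h : t G u v ≤ s) : bb G Y u ≤ bb G Y v + s := by
  obtain ⟨h1, h2⟩ := adj_bounds hdeg Y h
  have h3 := nbY_le (G := G) Y u
  have h4 := nbY_le (G := G) Y v
  unfold bb
  omega

/-- there is a gap in the values of `bb` -/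
lemma gap (Y : Finset V) (s s' : ℕ) (hs : 1 ≤ s) (hs' : 1 ≤ s') (hD : 90 * s * s' ≤ Y.card)
    (hM : (univ.filter (fun u => Y.card ≤ 3 * bb G Y u)).card ≤ 12 * s') :
    ∃ θ : ℕ, Y.card ≤ 3 * θ ∧ 2 * θ + 4 * s ≤ Y.card ∧
      ∀ u, ¬ (θ ≤ bb G Y u ∧ bb G Y u < θ + s) := by
  by_contra hcon
  push Not at hcon
  set D := Y.card with hDd
  have hss : 1 ≤ s * s' := Nat.mul_pos hs hs'
  have hss1 : s ≤ s * s' := Nat.le_mul_of_pos_right _ hs'
  have hD' : 90 * (s * s') ≤ D := by rw [← mul_assoc]; exact hD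
  have key : ∀ k : ℕ, k ≤ 12 * s' → ∃ u, D / 3 + 1 + k * s ≤ bb G Y u ∧
      bb G Y u < D / 3 + 1 + k * s + s := by
    intro k hk
    have hks : k * s ≤ 12 * (s * s') := by
      calc k * s ≤ 12 * s' * s := Nat.mul_le_mul_right _ hk
        _ = 12 * (s * s') := by ring
    obtain ⟨u, h1, h2⟩ := hcon (D / 3 + 1 + k * s) (by omega) (by omega)
    exact ⟨u, h1, h2⟩
  haveI : Nonempty V := ⟨(key 0 (Nat.zero_le _)).choose⟩
  choose! g hg using key
  have hinj : Set.InjOn g (range (12 * s' + 1)) := by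
    intro i hi j hj hij
    simp only [coe_range, Set.mem_Iio] at hi hj
    have h1 := hg i (by omega)
    have h2 := hg j (by omega)
    rw [hij] at h1
    by_contra hne
    rcases Nat.lt_or_gt_of_ne hne with h | h
    · have : i * s + s ≤ j * s := by
        calc i * s + s = (i + 1) * s := by ring
          _ ≤ j * s := Nat.mul_le_mul_right _ h
      omega
    · have : j * s + s ≤ i * s := by
        calc j * s + s = (j + 1) * s := by ring
          _ ≤ i * s := Nat.mul_le_mul_right _ h
      omega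
  have hcard : (range (12 * s' + 1)).card ≤ (univ.filter (fun u => D ≤ 3 * bb G Y u)).card := by
    apply card_le_card_of_injOn g _ hinj
    intro i hi
    simp only [coe_range, Set.mem_Iio] at hi
    have h1 := hg i (by omega)
    simp only [coe_filter, mem_univ, true_and, Set.mem_setOf_eq]
    omega
  rw [card_range] at hcard
  omega

/-- the auxiliary graph on the closed middle part -/
def HH (G : SimpleGraph V) [DecidableRel G.Adj] (Mid : Finset V) (s : ℕ) : SimpleGraph V where
  Adj u v := u ≠ v ∧ t G u v ≤ s ∧ u ∈ Mid ∧ v ∈ Mid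
  symm := ⟨fun u v h => ⟨h.1.symm, by rw [t_comm]; exact h.2.1, h.2.2.2, h.2.2.1⟩⟩
  loopless := ⟨fun u h => h.1 rfl⟩

lemma walk_dl (hdeg : ∀ u, Fintype.card V ≤ 2 * (nb G u).card) (Mid : Finset V) (s : ℕ) {r u : V}
    (p : (HH G Mid s).Walk r u) :
    (Even p.length → dl G r u ≤ 2 * s * p.length) ∧
      (Odd p.length → Fintype.card V ≤ dl G r u + 2 * s * p.length) := by
  induction p with
  | nil =>
    constructor
    · intro _
      simp [dl]
    · intro h
      simp at h
  | @cons r r' u hadj p ih =>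
    have h1 := dl_edge hdeg hadj.2.1
    have h2 := dl_perimeter (G := G) r r' u
    have h3 := dl_triangle (G := G) r u r'
    rw [dl_comm u r'] at h3
    rw [SimpleGraph.Walk.length_cons]
    have h4 : 2 * s * (p.length + 1) = 2 * s * p.length + 2 * s := by ring
    rw [h4]
    constructor
    · intro he
      have ho : Odd p.length := by
        rcases Nat.even_or_odd p.length with h | h
        · exact absurd he (by simpa [Nat.even_add_one] using h)
        · exact h
      have := ih.2 ho
      omega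
    · intro ho
      have he : Even p.length := by
        rcases Nat.even_or_odd p.length with h | h
        · exact h
        · exact absurd ho (by simpa [Nat.odd_add_one] using h)
      have := ih.1 he
      omega

lemma path_length_le (Mid : Finset V) (s : ℕ) {r u : V} (hr : r ∈ Mid)
    (p : (HH G Mid s).Walk r u) (hp : p.IsPath) : p.length ≤ Mid.card := by
  have h1 : p.support.toFinset ⊆ Mid := by
    intro x hx
    rw [List.mem_toFinset] at hx
    clear hp
    induction p with
    | nil =>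
      simp at hx
      rw [hx]; exact hr
    | cons hadj p ih =>
      rw [SimpleGraph.Walk.support_cons, List.mem_cons] at hx
      rcases hx with rfl | hx
      · exact hr
      · exact ih hadj.2.2.2 hx
  have h2 := card_le_card h1
  rw [List.toFinset_card_of_nodup hp.support_nodup, SimpleGraph.Walk.length_support] at h2
  omega

/-- 2-colouring of the middle part -/
lemma mid_colour (hdeg : ∀ u, Fintype.card V ≤ 2 * (nb G u).card) (Mid : Finset V) (s s' : ℕ)
    (hs : 1 ≤ s) (hs' : 1 ≤ s') (hn : 90 * s * s' ≤ Fintype.card V) (hMid : Mid.card ≤ 12 * s') :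
    ∃ f : V → Bool, ∀ u ∈ Mid, ∀ v ∈ Mid, u ≠ v → t G u v ≤ s → f u ≠ f v := by
  classical
  have hrep : ∀ c : (HH G Mid s).ConnectedComponent, ∃ r, (HH G Mid s).connectedComponentMk r = c :=
    fun c => c.exists_rep
  choose rep hrep using hrep
  refine ⟨fun u => decide (Fintype.card V < 2 * dl G (rep ((HH G Mid s).connectedComponentMk u)) u),
    ?_⟩
  intro u hu v hv huv ht
  have hadj : (HH G Mid s).Adj u v := ⟨huv, ht, hu, hv⟩
  have hc : (HH G Mid s).connectedComponentMk u = (HH G Mid s).connectedComponentMk v :=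
    SimpleGraph.ConnectedComponent.connectedComponentMk_eq_of_adj hadj
  simp only
  rw [← hc]
  set r := rep ((HH G Mid s).connectedComponentMk u) with hrd
  have hreach : (HH G Mid s).Reachable r u := SimpleGraph.ConnectedComponent.exact (hrep _)
  obtain ⟨p, hp⟩ := hreach.exists_isPath
  have hlen : p.length ≤ 12 * s' := by
    have h1 : p.reverse.length ≤ Mid.card := path_length_le Mid s hu p.reverse hp.reverse
    rw [SimpleGraph.Walk.length_reverse] at h1
    omega
  have hw := walk_dl hdeg Mid s p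
  have hss : 2 * s * p.length ≤ 24 * (s * s') := by
    calc 2 * s * p.length ≤ 2 * s * (12 * s') := Nat.mul_le_mul_left _ hlen
      _ = 24 * (s * s') := by ring
  have hss1 : s ≤ s * s' := Nat.le_mul_of_pos_right _ hs'
  have hn' : 90 * (s * s') ≤ Fintype.card V := by rw [← mul_assoc]; exact hn
  have hpos : 1 ≤ s * s' := Nat.mul_pos hs hs'
  have h1 := dl_edge hdeg ht
  have h2 := dl_perimeter (G := G) r u v
  have h3 := dl_triangle (G := G) u r v
  rw [dl_comm u r] at h3
  rcases Nat.even_or_odd p.length with he | ho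
  · have h4 := hw.1 he
    have h5 : ¬ Fintype.card V < 2 * dl G r u := by omega
    have h6 : Fintype.card V < 2 * dl G r v := by omega
    simp [h5, h6]
  · have h4 := hw.2 ho
    have h5 : Fintype.card V < 2 * dl G r u := by omega
    have h6 : ¬ Fintype.card V < 2 * dl G r v := by omega
    simp [h5, h6]

/-- structure lemma: one vertex with many partners at scale `s'` makes all pairs at scale `s`
bipartite -/
lemma structure_lemma (hdeg : ∀ u, Fintype.card V ≤ 2 * (nb G u).card) (s s' : ℕ)
    (hs : 1 ≤ s) (hs' : 1 ≤ s') (x : V) (hD : 90 * s * s' ≤ (DD G x s').card) :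
    ∃ f : V → Bool, ∀ u v, u ≠ v → t G u v ≤ s → f u ≠ f v := by
  classical
  set Y := DD G x s' with hY
  have hss1 : s ≤ s * s' := Nat.le_mul_of_pos_right _ hs'
  have hpos : 1 ≤ s * s' := Nat.mul_pos hs hs'
  have hD' : 90 * (s * s') ≤ Y.card := by rw [← mul_assoc]; exact hD
  have hYV : Y.card ≤ Fintype.card V := card_le_univ _
  have hmix : (univ.filter (fun u => Y.card ≤ 3 * bb G Y u)).card ≤ 12 * s' := by
    have h1 := mixed_card (G := G) Y (2 * s') (by omega) (by
      intro y hy y' hy'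
      rw [hY, DD, mem_filter] at hy hy'
      exact sdiff_nb_le hdeg hy.2.2.2 hy'.2.2.2)
    omega
  obtain ⟨θ, hθ1, hθ2, hgap⟩ := gap Y s s' hs hs' hD hmix
  set Mid := univ.filter (fun u => θ + s ≤ bb G Y u) with hMid
  have hMidcard : Mid.card ≤ 12 * s' := by
    refine le_trans (card_le_card ?_) hmix
    intro u hu
    rw [hMid, mem_filter] at hu
    simp only [mem_filter, mem_univ, true_and]
    omega
  obtain ⟨f, hf⟩ := mid_colour hdeg Mid s s' hs hs' (le_trans hD hYV) hMidcard
  refine ⟨fun u => if u ∈ Mid then f u else decide (Y.card < 2 * (nb G u ∩ Y).card), ?_⟩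
  intro u v huv ht
  have e1 := bb_edge hdeg Y ht
  have e2 := bb_edge hdeg Y (show t G v u ≤ s by rw [t_comm]; exact ht)
  have g1 := hgap u
  have g2 := hgap v
  have hm : ∀ w, w ∈ Mid ↔ θ + s ≤ bb G Y w := by
    intro w; rw [hMid, mem_filter]; simp
  by_cases hu : u ∈ Mid
  · have hv : v ∈ Mid := by
      rw [hm] at hu ⊢
      by_contra hcon
      apply g2
      omega
    simp only [hu, hv, if_true]
    exact hf u hu v hv huv ht
  · have hv : v ∉ Mid := by
      rw [hm] at hu ⊢
      intro hcon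
      apply g1
      omega
    simp only [hu, hv, if_false]
    rw [hm] at hu hv
    obtain ⟨a1, a2⟩ := adj_bounds hdeg Y ht
    have b1 := nbY_le (G := G) Y u
    have b2 := nbY_le (G := G) Y v
    have hbu : bb G Y u < θ := by
      by_contra hcon
      exact g1 ⟨by omega, by omega⟩
    unfold bb at hbu
    rcases lt_or_ge (nb G u ∩ Y).card θ with h | h
    · have h5 : ¬ Y.card < 2 * (nb G u ∩ Y).card := by omega
      have h6 : Y.card < 2 * (nb G v ∩ Y).card := by omega
      simp [h5, h6]
    · have h7 : Y.card - (nb G u ∩ Y).card < θ := by omega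
      have h5 : Y.card < 2 * (nb G u ∩ Y).card := by omega
      have h6 : ¬ Y.card < 2 * (nb G v ∩ Y).card := by omega
      simp [h5, h6]

/-- choice of the scale `S` -/
lemma scale_lemma [Nonempty V] (hdeg : ∀ u, Fintype.card V ≤ 2 * (nb G u).card) (B : ℕ)
    (hB : 1 ≤ B) (htB : ∀ u v, u ≠ v → ¬ G.Adj u v → B ≤ t G u v) :
    ∃ (S : ℕ) (f : V → Bool), B ≤ S ∧
      (∀ u v, u ≠ v → ¬ G.Adj u v → t G u v < S → f u ≠ f v) ∧
      (∀ x s, 1 ≤ s → (DD G x s).card < 90 * s * S) := by
  classical
  let P : ℕ → Prop := fun s => ∃ (x : V) (s' : ℕ), 1 ≤ s' ∧ 90 * s * s' ≤ (DD G x s').card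
  have hP0 : P 0 := ⟨Classical.arbitrary V, 1, le_rfl, by simp⟩
  have hPb : ∀ s, P s → s ≤ Fintype.card V := by
    rintro s ⟨x, s', hs', h⟩
    have h1 : (DD G x s').card ≤ Fintype.card V := card_le_univ _
    have h2 : s ≤ s * s' := Nat.le_mul_of_pos_right _ hs'
    have h3 : 90 * s * s' = 90 * (s * s') := by ring
    omega
  set s1 := Nat.findGreatest P (Fintype.card V) with hs1
  have hPs1 : P s1 := Nat.findGreatest_spec (P := P) (Nat.zero_le _) hP0
  have hnot : ¬ P (s1 + 1) := by
    intro h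
    have h1 := hPb _ h
    have h2 := Nat.le_findGreatest h1 h
    omega
  have hbound : ∀ x s, 1 ≤ s → (DD G x s).card < 90 * s * (s1 + 1) := by
    intro x s hs
    by_contra hcon
    push Not at hcon
    apply hnot
    refine ⟨x, s, hs, ?_⟩
    calc 90 * (s1 + 1) * s = 90 * s * (s1 + 1) := by ring
      _ ≤ _ := hcon
  have hf : ∃ f : V → Bool, ∀ u v, u ≠ v → ¬ G.Adj u v → t G u v ≤ s1 → f u ≠ f v := by
    rcases Nat.eq_zero_or_pos s1 with h0 | h0
    · refine ⟨fun _ => true, ?_⟩
      intro u v huv hadj ht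
      have := htB u v huv hadj
      omega
    · obtain ⟨x, s', hs', h⟩ := hPs1
      obtain ⟨f, hf⟩ := structure_lemma hdeg s1 s' h0 hs' x h
      exact ⟨f, fun u v huv _ ht => hf u v huv ht⟩
  obtain ⟨f, hf⟩ := hf
  refine ⟨max (s1 + 1) B, f, le_max_right _ _, ?_, ?_⟩
  · intro u v huv hadj ht
    have h1 := htB u v huv hadj
    apply hf u v huv hadj
    omega
  · intro x s hs
    refine lt_of_lt_of_le (hbound x s hs) ?_
    exact Nat.mul_le_mul_left _ (le_max_left _ _)

end Pool.Agent.Helper208.Rainbow
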