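import Mathlib

set_option autoImplicit false

open Finset

namespace Pool.Agent.Helper208.Rainbow

lemma sum_inv_cube (S M : ℕ) (hS : 1 ≤ S) :
    ∑ s ∈ Ico S M, (1 : ℝ) / (s : ℝ) ^ 3 ≤ 2 / (S : ℝ) ^ 2 := by
  rcases Nat.lt_or_ge M S with hM | hM
  · rw [Ico_eq_empty (by omega)]
    simp only [sum_empty]
    positivity
  · have key : ∀ M, S ≤ M →
        ∑ s ∈ Ico S M, (1 : ℝ) / (s : ℝ) ^ 3 ≤ 2 / (S : ℝ) ^ 2 - 2 / (M : ℝ) ^ 2 := by
      intro M hM
      induction M, hM using Nat.le_induction with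
      | base => simp
      | succ M hM ih =>
        rw [sum_Ico_succ_top hM]
        have hM1 : (1 : ℝ) ≤ M := by exact_mod_cast le_trans hS hM
        have h1 : (1 : ℝ) / (M : ℝ) ^ 3 ≤ 2 / (M : ℝ) ^ 2 - 2 / ((M + 1 : ℕ) : ℝ) ^ 2 := by
          push_cast
          rw [div_sub_div _ _ (by positivity) (by positivity), div_le_div_iff₀ (by positivity)
            (by positivity)]
          nlinarith [mul_nonneg (sq_nonneg (M : ℝ)) (sq_nonneg ((M : ℝ))), hM1,
            mul_nonneg (mul_nonneg (sq_nonneg (M : ℝ)) (by linarith : (0 : ℝ) ≤ M))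
              (by linarith : (0 : ℝ) ≤ M - 1), sq_nonneg ((M : ℝ) - 1), sq_nonneg (M : ℝ),
              mul_nonneg (sq_nonneg (M : ℝ)) (by linarith : (0 : ℝ) ≤ M - 1)]
        linarith
    have := key M hM
    have h2 : (0 : ℝ) ≤ 2 / (M : ℝ) ^ 2 := by positivity
    linarith

lemma inv_fourth_le (t M : ℕ) (S : ℕ) (hS : 1 ≤ S) (ht : S ≤ t) (hM : 2 * t ≤ M) :
    (1 : ℝ) / (t : ℝ) ^ 4 ≤ 32 * ∑ s ∈ Ico S M, if t ≤ s then (1 : ℝ) / (s : ℝ) ^ 5 else 0 := by
  have ht1 : (1 : ℝ) ≤ t := by exact_mod_cast le_trans hS ht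
  have h1 : ∑ s ∈ Ico t (2 * t), (1 : ℝ) / ((2 * t : ℕ) : ℝ) ^ 5 ≤
      ∑ s ∈ Ico S M, if t ≤ s then (1 : ℝ) / (s : ℝ) ^ 5 else 0 := by
    rw [← sum_filter]
    calc ∑ s ∈ Ico t (2 * t), (1 : ℝ) / ((2 * t : ℕ) : ℝ) ^ 5
        ≤ ∑ s ∈ Ico t (2 * t), (1 : ℝ) / (s : ℝ) ^ 5 := by
          apply sum_le_sum
          intro s hs
          rw [mem_Ico] at hs
          have hs0 : (0 : ℝ) < s := by
            have : 0 < s := by omega
            exact_mod_cast this
          apply one_div_le_one_div_of_le (by positivity)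
          apply pow_le_pow_left₀ hs0.le
          exact_mod_cast hs.2.le
      _ ≤ ∑ s ∈ (Ico S M).filter (fun s => t ≤ s), (1 : ℝ) / (s : ℝ) ^ 5 := by
          apply sum_le_sum_of_subset_of_nonneg
          · intro s hs
            rw [mem_Ico] at hs
            rw [mem_filter, mem_Ico]
            omega
          · intro s _ _
            positivity
  rw [sum_const, Nat.card_Ico, nsmul_eq_mul] at h1
  have h2 : ((2 * t - t : ℕ) : ℝ) = t := by
    have : 2 * t - t = t := by omega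
    rw [this]
  rw [h2] at h1
  have h3 : (1 : ℝ) / (t : ℝ) ^ 4 = 32 * ((t : ℝ) * (1 / ((2 * t : ℕ) : ℝ) ^ 5)) := by
    push_cast
    have : (t : ℝ) ≠ 0 := by positivity
    field_simp
    norm_num
  rw [h3]
  linarith

lemma part2_sum {V : Type*} (N : Finset V) (τ : V → ℕ) (S : ℕ) (hS : 1 ≤ S)
    (hc : ∀ s, S ≤ s → (N.filter (fun y => τ y ≤ s)).card ≤ 90 * s * S) :
    ∑ y ∈ N.filter (fun y => S ≤ τ y), (1 : ℝ) / (τ y : ℝ) ^ 4 ≤ 5760 / (S : ℝ) ^ 2 := by
  classical
  set M := 2 * (N.sup τ) with hM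
  have hMy : ∀ y ∈ N, 2 * τ y ≤ M := by
    intro y hy
    have := le_sup (f := τ) hy
    omega
  calc ∑ y ∈ N.filter (fun y => S ≤ τ y), (1 : ℝ) / (τ y : ℝ) ^ 4
      ≤ ∑ y ∈ N.filter (fun y => S ≤ τ y),
        32 * ∑ s ∈ Ico S M, (if τ y ≤ s then (1 : ℝ) / (s : ℝ) ^ 5 else 0) := by
        apply sum_le_sum
        intro y hy
        rw [mem_filter] at hy
        exact inv_fourth_le _ _ _ hS hy.2 (hMy y hy.1)
    _ = 32 * ∑ s ∈ Ico S M, ∑ y ∈ N.filter (fun y => S ≤ τ y),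
        (if τ y ≤ s then (1 : ℝ) / (s : ℝ) ^ 5 else 0) := by
        rw [← mul_sum, sum_comm]
    _ ≤ 32 * ∑ s ∈ Ico S M, 90 * ((1 : ℝ) / (s : ℝ) ^ 3) := by
        apply mul_le_mul_of_nonneg_left _ (by norm_num)
        apply sum_le_sum
        intro s hs
        rw [mem_Ico] at hs
        rw [← sum_filter, sum_const, nsmul_eq_mul]
        have h1 : (((N.filter (fun y => S ≤ τ y)).filter (fun y => τ y ≤ s)).card : ℝ) ≤
            90 * s * s := by
          have h2 : ((N.filter (fun y => S ≤ τ y)).filter (fun y => τ y ≤ s)).card ≤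
              (N.filter (fun y => τ y ≤ s)).card := by
            apply card_le_card
            intro y hy
            simp only [mem_filter] at hy ⊢
            tauto
          have h3 := hc s hs.1
          have h4 : 90 * s * S ≤ 90 * s * s := Nat.mul_le_mul_left _ hs.1
          exact_mod_cast le_trans h2 (le_trans h3 h4)
        have hs0 : (0 : ℝ) < s := by
          have : 0 < s := by omega
          exact_mod_cast this
        calc (((N.filter (fun y => S ≤ τ y)).filter (fun y => τ y ≤ s)).card : ℝ) *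
              (1 / (s : ℝ) ^ 5) ≤ (90 * s * s) * (1 / (s : ℝ) ^ 5) :=
              mul_le_mul_of_nonneg_right h1 (by positivity)
          _ = 90 * ((1 : ℝ) / (s : ℝ) ^ 3) := by
              field_simp
    _ = 2880 * ∑ s ∈ Ico S M, ((1 : ℝ) / (s : ℝ) ^ 3) := by
        rw [← mul_sum]; ring
    _ ≤ 2880 * (2 / (S : ℝ) ^ 2) :=
        mul_le_mul_of_nonneg_left (sum_inv_cube S M hS) (by norm_num)
    _ = _ := by ring

/-- weight in the second range -/
lemma weight2_le (q t : ℕ) (hq : 1 ≤ q) (ht : q ^ 2 ≤ t) :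
    (1 - 1 / (2 * (q : ℝ))) ^ t ≤ 10321920 * (1 / (t : ℝ) ^ 4) := by
  have hq0 : (1 : ℝ) ≤ q := by exact_mod_cast hq
  have htR : (q : ℝ) ^ 2 ≤ t := by exact_mod_cast ht
  have ht0 : (0 : ℝ) < t := lt_of_lt_of_le (by positivity) htR
  set u : ℝ := t / (2 * q) with hu
  have hu0 : 0 ≤ u := by positivity
  have h1 : (1 - 1 / (2 * (q : ℝ))) ^ t ≤ Real.exp (-u) := by
    have h2 : 1 - 1 / (2 * (q : ℝ)) ≤ Real.exp (-(1 / (2 * (q : ℝ)))) := by
      have := Real.add_one_le_exp (-(1 / (2 * (q : ℝ))))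
      linarith
    have h3 : 0 ≤ 1 - 1 / (2 * (q : ℝ)) := by
      rw [sub_nonneg, div_le_one (by positivity)]
      linarith
    calc (1 - 1 / (2 * (q : ℝ))) ^ t ≤ Real.exp (-(1 / (2 * (q : ℝ)))) ^ t :=
          pow_le_pow_left₀ h3 h2 t
      _ = Real.exp (-u) := by
          rw [← Real.exp_nat_mul]
          congr 1
          rw [hu]; ring
  refine le_trans h1 ?_
  have h4 := Real.pow_div_factorial_le_exp u hu0 8
  have h5 : (t : ℝ) ^ 4 / 10321920 ≤ u ^ 8 / (Nat.factorial 8 : ℝ) := by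
    have h6 : u ^ 8 = (t : ℝ) ^ 8 / (256 * (q : ℝ) ^ 8) := by
      rw [hu]; ring
    rw [h6]
    have h7 : (Nat.factorial 8 : ℝ) = 40320 := by norm_num [Nat.factorial]
    rw [h7, div_div, div_le_div_iff₀ (by norm_num) (by positivity)]
    have h8 : (q : ℝ) ^ 8 ≤ (t : ℝ) ^ 4 := by
      calc (q : ℝ) ^ 8 = ((q : ℝ) ^ 2) ^ 4 := by ring
        _ ≤ (t : ℝ) ^ 4 := pow_le_pow_left₀ (by positivity) htR 4
    calc (t : ℝ) ^ 4 * (256 * (q : ℝ) ^ 8 * 40320) = (10321920 * (t : ℝ) ^ 4) * (q : ℝ) ^ 8 := by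
          ring
      _ ≤ (10321920 * (t : ℝ) ^ 4) * (t : ℝ) ^ 4 :=
          mul_le_mul_of_nonneg_left h8 (by positivity)
      _ = (t : ℝ) ^ 8 * 10321920 := by ring
  have h9 : (t : ℝ) ^ 4 / 10321920 ≤ Real.exp u := le_trans h5 h4
  rw [Real.exp_neg, mul_one_div]
  rw [inv_le_comm₀ (Real.exp_pos _) (by positivity), inv_div]
  exact h9

/-- total weight at a vertex -/
lemma total_weight {V : Type*} (N : Finset V) (τ : V → ℕ) (S q : ℕ) (hq : 23000 ≤ q)
    (hqS : q ^ 2 ≤ S) (hSq : S < (q + 1) ^ 2) (h12 : ∀ y ∈ N, 12 ≤ τ y)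
    (hc : ∀ s, 1 ≤ s → (N.filter (fun y => τ y ≤ s)).card ≤ 90 * s * S) :
    ∑ y ∈ N, (if τ y < S then (8 / (q : ℝ)) ^ (τ y) else (1 - 1 / (2 * (q : ℝ))) ^ (τ y)) ≤
      1 / (64 * (q : ℝ)) := by
  classical
  have hqR : (23000 : ℝ) ≤ q := by exact_mod_cast hq
  have hq0 : (0 : ℝ) < q := by linarith
  have hqSR : (q : ℝ) ^ 2 ≤ S := by exact_mod_cast hqS
  have hSqR : (S : ℝ) ≤ 4 * (q : ℝ) ^ 2 := by
    have h1 : S ≤ 4 * q ^ 2 := by nlinarith
    exact_mod_cast h1
  have hS1 : 1 ≤ S := by nlinarith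
  have hS0 : (0 : ℝ) < S := by exact_mod_cast hS1
  rw [← sum_filter_add_sum_filter_not N (fun y => τ y < S)]
  have hp1 : ∑ y ∈ N.filter (fun y => τ y < S),
      (if τ y < S then (8 / (q : ℝ)) ^ (τ y) else (1 - 1 / (2 * (q : ℝ))) ^ (τ y)) ≤
      1 / (128 * (q : ℝ)) := by
    calc ∑ y ∈ N.filter (fun y => τ y < S),
        (if τ y < S then (8 / (q : ℝ)) ^ (τ y) else (1 - 1 / (2 * (q : ℝ))) ^ (τ y))
        ≤ ∑ y ∈ N.filter (fun y => τ y < S), (8 / (q : ℝ)) ^ 12 := by
          apply sum_le_sum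
          intro y hy
          rw [mem_filter] at hy
          rw [if_pos hy.2]
          apply pow_le_pow_of_le_one (by positivity) _ (h12 y hy.1)
          rw [div_le_one hq0]; linarith
      _ = ((N.filter (fun y => τ y < S)).card : ℝ) * (8 / (q : ℝ)) ^ 12 := by
          rw [sum_const, nsmul_eq_mul]
      _ ≤ (90 * S * S) * (8 / (q : ℝ)) ^ 12 := by
          apply mul_le_mul_of_nonneg_right _ (by positivity)
          have h1 : (N.filter (fun y => τ y < S)).card ≤ (N.filter (fun y => τ y ≤ S)).card := by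
            apply card_le_card
            intro y hy
            simp only [mem_filter] at hy ⊢
            exact ⟨hy.1, hy.2.le⟩
          exact_mod_cast le_trans h1 (hc S hS1)
      _ ≤ (1440 * (q : ℝ) ^ 4) * (8 / (q : ℝ)) ^ 12 := by
          apply mul_le_mul_of_nonneg_right _ (by positivity)
          have h2 : (S : ℝ) * S ≤ (4 * (q : ℝ) ^ 2) * (4 * (q : ℝ) ^ 2) :=
            mul_le_mul hSqR hSqR hS0.le (by positivity)
          nlinarith
      _ = (1440 * 8 ^ 12) / (q : ℝ) ^ 8 := by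
          field_simp
      _ ≤ 1 / (128 * (q : ℝ)) := by
          rw [div_le_div_iff₀ (by positivity) (by positivity)]
          have h3 : (23000 : ℝ) ^ 7 ≤ (q : ℝ) ^ 7 := pow_le_pow_left₀ (by norm_num) hqR 7
          calc (1440 * 8 ^ 12 : ℝ) * (128 * (q : ℝ)) = (1440 * 8 ^ 12 * 128) * (q : ℝ) := by ring
            _ ≤ (23000 : ℝ) ^ 7 * (q : ℝ) := by
                apply mul_le_mul_of_nonneg_right _ hq0.le
                norm_num
            _ ≤ (q : ℝ) ^ 7 * (q : ℝ) := mul_le_mul_of_nonneg_right h3 hq0.le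
            _ = 1 * (q : ℝ) ^ 8 := by ring
  have hp2 : ∑ y ∈ N.filter (fun y => ¬ τ y < S),
      (if τ y < S then (8 / (q : ℝ)) ^ (τ y) else (1 - 1 / (2 * (q : ℝ))) ^ (τ y)) ≤
      1 / (128 * (q : ℝ)) := by
    calc ∑ y ∈ N.filter (fun y => ¬ τ y < S),
        (if τ y < S then (8 / (q : ℝ)) ^ (τ y) else (1 - 1 / (2 * (q : ℝ))) ^ (τ y))
        ≤ ∑ y ∈ N.filter (fun y => S ≤ τ y), 10321920 * (1 / (τ y : ℝ) ^ 4) := by
          have h0 : N.filter (fun y => ¬ τ y < S) = N.filter (fun y => S ≤ τ y) := by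
            ext y; simp
          rw [h0]
          apply sum_le_sum
          intro y hy
          rw [mem_filter] at hy
          rw [if_neg (by omega)]
          exact weight2_le q (τ y) (by omega) (le_trans hqS hy.2)
      _ = 10321920 * ∑ y ∈ N.filter (fun y => S ≤ τ y), (1 / (τ y : ℝ) ^ 4) := by
          rw [mul_sum]
      _ ≤ 10321920 * (5760 / (S : ℝ) ^ 2) := by
          apply mul_le_mul_of_nonneg_left _ (by norm_num)
          exact part2_sum N τ S hS1 (fun s hs => hc s (le_trans hS1 hs))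
      _ ≤ 10321920 * (5760 / ((q : ℝ) ^ 2) ^ 2) := by
          apply mul_le_mul_of_nonneg_left _ (by norm_num)
          apply div_le_div_of_nonneg_left (by norm_num) (by positivity)
          exact pow_le_pow_left₀ (by positivity) hqSR 2
      _ = (10321920 * 5760) / (q : ℝ) ^ 4 := by
          field_simp
      _ ≤ 1 / (128 * (q : ℝ)) := by
          rw [div_le_div_iff₀ (by positivity) (by positivity)]
          have h3 : (23000 : ℝ) ^ 3 ≤ (q : ℝ) ^ 3 := pow_le_pow_left₀ (by norm_num) hqR 3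
          calc (10321920 * 5760 : ℝ) * (128 * (q : ℝ)) = (10321920 * 5760 * 128) * (q : ℝ) := by
                ring
            _ ≤ (23000 : ℝ) ^ 3 * (q : ℝ) := by
                apply mul_le_mul_of_nonneg_right _ hq0.le
                norm_num
            _ ≤ (q : ℝ) ^ 3 * (q : ℝ) := mul_le_mul_of_nonneg_right h3 hq0.le
            _ = 1 * (q : ℝ) ^ 4 := by ring
  have : 1 / (64 * (q : ℝ)) = 1 / (128 * (q : ℝ)) + 1 / (128 * (q : ℝ)) := by
    field_simp; norm_num
  rw [this]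
  exact add_le_add hp1 hp2

end Pool.Agent.Helper208.Rainbow
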