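import Mathlib
import Pool.Agent.Helper208.Rainbow.Struct
import Pool.Agent.Helper208.Rainbow.LLL
import Pool.Agent.Helper208.Rainbow.Sum

set_option autoImplicit false

open Finset

namespace Pool.Agent.Helper208.Rainbow

section card

variable (q : ℕ) [NeZero q]

/-- coincidences of two noisy bits -/
def RR (a b : Bool) : Finset (Fin q × Fin q) :=
  univ.filter (fun z => (xor a (decide (z.1 = 0))) = (xor b (decide (z.2 = 0))))

lemma RR_ne {a b : Bool} (h : a ≠ b) : (RR q a b).card = 2 * (q - 1) := by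
  have h1 : RR q a b = (({0} : Finset (Fin q)) ×ˢ ({0} : Finset (Fin q))ᶜ) ∪
      ((({0} : Finset (Fin q))ᶜ) ×ˢ ({0} : Finset (Fin q))) := by
    ext ⟨z, z'⟩
    simp only [RR, mem_filter, mem_univ, true_and, mem_union, mem_product, mem_singleton,
      mem_compl]
    by_cases h1 : z = 0 <;> by_cases h2 : z' = 0 <;> cases a <;> cases b <;> simp_all
  have h2 : Disjoint (({0} : Finset (Fin q)) ×ˢ ({0} : Finset (Fin q))ᶜ)
      ((({0} : Finset (Fin q))ᶜ) ×ˢ ({0} : Finset (Fin q))) := by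
    rw [disjoint_left]
    rintro ⟨z, z'⟩ hz hz'
    simp only [mem_product, mem_singleton, mem_compl] at hz hz'
    exact hz'.1 hz.1
  rw [h1, card_union_of_disjoint h2, card_product, card_product, card_compl, card_singleton,
    Fintype.card_fin]
  ring

lemma RR_eq (a : Bool) : (RR q a a).card + 2 * (q - 1) = q ^ 2 := by
  have h1 : RR q a a = (RR q a (!a))ᶜ := by
    ext ⟨z, z'⟩
    simp only [RR, mem_filter, mem_univ, true_and, mem_compl]
    cases a <;> by_cases h1 : z = 0 <;> by_cases h2 : z' = 0 <;> simp [h1, h2]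
  have h2 : (RR q a (!a)).card = 2 * (q - 1) := RR_ne q (by cases a <;> simp)
  have h3 := card_compl (RR q a (!a))
  have h4 : (RR q a (!a)).card ≤ Fintype.card (Fin q × Fin q) := card_le_univ _
  rw [← h1] at h3
  rw [Fintype.card_prod, Fintype.card_fin] at h3 h4
  rw [pow_two]
  omega

end card

variable {V : Type*} [Fintype V] [DecidableEq V] (G : SimpleGraph V) [DecidableRel G.Adj]

/-- bad event for a pair -/
def EV (f : V → Bool) (q : ℕ) [NeZero q] (p : V × V) : Finset (Sym2 V → Fin q) :=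
  if p.1 ≠ p.2 ∧ ¬ G.Adj p.1 p.2 then
    univ.filter (fun ω => ∀ w ∈ W G p.1 p.2, (ω s(p.1, w), ω s(p.2, w)) ∈ RR q (f p.1) (f p.2))
  else ∅

/-- edges relevant for a pair -/
def FF (p : V × V) : Finset (Sym2 V) :=
  if p.1 ≠ p.2 ∧ ¬ G.Adj p.1 p.2 then
    (W G p.1 p.2).image (fun w => s(p.1, w)) ∪ (W G p.1 p.2).image (fun w => s(p.2, w))
  else ∅

/-- weight of a pair -/
noncomputable def XX (S q : ℕ) (p : V × V) : ℝ :=
  if p.1 ≠ p.2 ∧ ¬ G.Adj p.1 p.2 then
    (if t G p.1 p.2 < S then (8 / (q : ℝ)) ^ (t G p.1 p.2)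
      else (1 - 1 / (2 * (q : ℝ))) ^ (t G p.1 p.2))
  else 0

variable {G}

lemma EV_dep (f : V → Bool) (q : ℕ) [NeZero q] (p : V × V) : DepOn (EV G f q p) (FF G p) := by
  intro ω ω' h
  unfold EV FF at *
  split_ifs at h ⊢ with hc
  · simp only [mem_filter, mem_univ, true_and]
    have h2 : ∀ w ∈ W G p.1 p.2, ω s(p.1, w) = ω' s(p.1, w) ∧ ω s(p.2, w) = ω' s(p.2, w) :=
      fun w hw => ⟨h _ (mem_union_left _ (mem_image_of_mem _ hw)),
        h _ (mem_union_right _ (mem_image_of_mem _ hw))⟩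
    constructor
    · intro h3 w hw
      rw [← (h2 w hw).1, ← (h2 w hw).2]; exact h3 w hw
    · intro h3 w hw
      rw [(h2 w hw).1, (h2 w hw).2]; exact h3 w hw
  · simp

lemma FF_card (p : V × V) (hc : p.1 ≠ p.2 ∧ ¬ G.Adj p.1 p.2) :
    (FF G p).card ≤ 2 * t G p.1 p.2 := by
  unfold FF
  rw [if_pos hc]
  refine le_trans (card_union_le _ _) ?_
  have h1 : ((W G p.1 p.2).image (fun w => s(p.1, w))).card ≤ (W G p.1 p.2).card := card_image_le
  have h2 : ((W G p.1 p.2).image (fun w => s(p.2, w))).card ≤ (W G p.1 p.2).card := card_image_le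
  unfold t
  omega

lemma EV_card (f : V → Bool) (q : ℕ) [NeZero q] (p : V × V) (hc : p.1 ≠ p.2 ∧ ¬ G.Adj p.1 p.2) :
    (EV G f q p).card * (q ^ 2) ^ (t G p.1 p.2) =
      (RR q (f p.1) (f p.2)).card ^ (t G p.1 p.2) * Fintype.card (Sym2 V → Fin q) := by
  unfold EV
  rw [if_pos hc]
  have hm : ∀ w ∈ W G p.1 p.2, G.Adj p.1 w ∧ G.Adj p.2 w := by
    intro w hw
    simpa [W] using hw
  have hne : ∀ w ∈ W G p.1 p.2, s(p.1, w) ≠ s(p.2, w) := by
    intro w hw h
    rw [Sym2.eq_iff] at h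
    have h1 := (hm w hw).1.ne
    rcases h with h | h
    · exact hc.1 h.1
    · exact h1 h.1
  have := pairs_card (α := Fin q) (W G p.1 p.2) (fun w => s(p.1, w)) (fun w => s(p.2, w)) hne (by
    intro w hw w' hw' hww
    have h1 := hm w hw
    have h2 := hm w' hw'
    refine ⟨?_, ?_, ?_, ?_⟩
    · intro h
      rw [Sym2.eq_iff] at h
      rcases h with h | h
      · exact hww h.2
      · exact h2.1.ne h.1
    · intro h
      rw [Sym2.eq_iff] at h
      rcases h with h | h
      · exact hc.1 h.1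
      · exact hc.2 (by rw [← h.2]; exact h1.1)
    · intro h
      rw [Sym2.eq_iff] at h
      rcases h with h | h
      · exact hc.1 h.1.symm
      · exact hc.2 (by rw [← h.2]; exact h1.2.symm)
    · intro h
      rw [Sym2.eq_iff] at h
      rcases h with h | h
      · exact hww h.2
      · exact h2.2.ne h.1) (RR q (f p.1) (f p.2))
  rw [Fintype.card_fin] at this
  unfold t
  convert this

lemma XX_symm (S q : ℕ) (a b : V) : XX G S q (a, b) = XX G S q (b, a) := by
  unfold XX
  simp only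
  rw [t_comm G a b]
  have h : (a ≠ b ∧ ¬ G.Adj a b) ↔ (b ≠ a ∧ ¬ G.Adj b a) := by
    rw [ne_comm, G.adj_comm]
  by_cases hc : b ≠ a ∧ ¬ G.Adj b a
  · rw [if_pos hc, if_pos (h.mpr hc)]
  · rw [if_neg hc, if_neg (fun h' => hc (h.mp h'))]

lemma XX_nonneg (S q : ℕ) (hq : 1 ≤ q) (p : V × V) : 0 ≤ XX G S q p := by
  unfold XX
  have hq0 : (1 : ℝ) ≤ q := by exact_mod_cast hq
  have h1 : 0 ≤ 1 - 1 / (2 * (q : ℝ)) := by
    rw [sub_nonneg, div_le_one (by positivity)]
    linarith
  split_ifs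
  · positivity
  · positivity
  · exact le_rfl

/-- sum of the weights at a vertex -/
lemma XX_sum (S q : ℕ) (hq : 23000 ≤ q) (hqS : q ^ 2 ≤ S) (hSq : S < (q + 1) ^ 2)
    (h12 : ∀ u v, u ≠ v → ¬ G.Adj u v → 12 ≤ t G u v)
    (hD : ∀ x s, 1 ≤ s → (DD G x s).card < 90 * s * S) (x : V) :
    ∑ y, XX G S q (x, y) ≤ 1 / (64 * (q : ℝ)) := by
  have h1 := total_weight (univ.filter (fun y => x ≠ y ∧ ¬ G.Adj x y)) (fun y => t G x y) S q hq
    hqS hSq (by
      intro y hy
      simp only [mem_filter, mem_univ, true_and] at hy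
      exact h12 x y hy.1 hy.2) (by
      intro s hs
      refine le_trans (card_le_card ?_) (hD x s hs).le
      intro y hy
      simp only [mem_filter, mem_univ, true_and, DD] at hy ⊢
      exact ⟨hy.1.1.symm, hy.1.2, hy.2⟩)
  rw [sum_filter] at h1
  exact h1

/-- sum of the weights at an edge -/
lemma XX_edge (S q : ℕ) (hq : 1 ≤ q) (Z0 : ℝ) (hZ : ∀ x, ∑ y, XX G S q (x, y) ≤ Z0)
    (e : Sym2 V) :
    ∑ p ∈ univ.filter (fun p => e ∈ FF G p), XX G S q p ≤ 4 * Z0 := by
  induction e using Sym2.ind with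
  | _ a b =>
    have hnn := XX_nonneg (G := G) S q hq
    have h1 : univ.filter (fun p => s(a, b) ∈ FF G p) ⊆
        ((univ.image (fun y => ((a, y) : V × V))) ∪ (univ.image (fun y => ((b, y) : V × V)))) ∪
        ((univ.image (fun y => ((y, a) : V × V))) ∪ (univ.image (fun y => ((y, b) : V × V)))) := by
      rintro ⟨u, v⟩ hp
      simp only [mem_filter, mem_univ, true_and, FF] at hp
      split_ifs at hp with hc
      · simp only [mem_union, mem_image] at hp
        simp only [mem_union, mem_image, mem_univ, true_and, Prod.mk.injEq, exists_eq_right]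
        rcases hp with ⟨w, -, hw⟩ | ⟨w, -, hw⟩
        · rw [Sym2.eq_iff] at hw
          rcases hw with hw | hw
          · left; left; exact hw.1.symm
          · left; right; exact hw.1.symm
        · rw [Sym2.eq_iff] at hw
          rcases hw with hw | hw
          · right; left; exact ⟨u, rfl, hw.1.symm⟩
          · right; right; exact ⟨u, rfl, hw.1.symm⟩
      · simp at hp
    have hun : ∀ A B : Finset (V × V), ∑ p ∈ A ∪ B, XX G S q p ≤
        ∑ p ∈ A, XX G S q p + ∑ p ∈ B, XX G S q p := by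
      intro A B
      rw [← sum_union_inter]
      have : 0 ≤ ∑ p ∈ A ∩ B, XX G S q p := sum_nonneg fun p _ => hnn p
      linarith
    have hl : ∀ c : V, ∑ p ∈ univ.image (fun y => ((c, y) : V × V)), XX G S q p ≤ Z0 := by
      intro c
      rw [sum_image (by intro x _ y _ h; simpa using h)]
      exact hZ c
    have hr : ∀ c : V, ∑ p ∈ univ.image (fun y => ((y, c) : V × V)), XX G S q p ≤ Z0 := by
      intro c
      rw [sum_image (by intro x _ y _ h; simpa using h)]
      simp_rw [XX_symm S q _ c]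
      exact hZ c
    refine le_trans (sum_le_sum_of_subset_of_nonneg h1 (fun p _ _ => hnn p)) ?_
    refine le_trans (hun _ _) ?_
    have h2 := hun (univ.image (fun y => ((a, y) : V × V))) (univ.image (fun y => ((b, y) : V × V)))
    have h3 := hun (univ.image (fun y => ((y, a) : V × V))) (univ.image (fun y => ((y, b) : V × V)))
    have := hl a
    have := hl b
    have := hr a
    have := hr b
    linarith

/-- numerical comparison of the probability of a bad event with its weight -/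
lemma weight_ok (q t S R : ℕ) (hq : 23000 ≤ q)
    (hR : (t < S ∧ R = 2 * (q - 1)) ∨ (¬ t < S ∧ R = 2 * (q - 1)) ∨
      (¬ t < S ∧ R + 2 * (q - 1) = q ^ 2)) :
    ((R : ℝ) / (q : ℝ) ^ 2) ^ t ≤
      (if t < S then (8 / (q : ℝ)) ^ t else (1 - 1 / (2 * (q : ℝ))) ^ t) *
        Real.exp (-((t : ℝ) / (4 * q))) := by
  have hqR : (23000 : ℝ) ≤ q := by exact_mod_cast hq
  have hq0 : (0 : ℝ) < q := by linarith
  have hq1 : ((q - 1 : ℕ) : ℝ) = (q : ℝ) - 1 := by
    rw [Nat.cast_sub (by omega)]; simp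
  have hexp : (1 - 1 / (4 * (q : ℝ))) ^ t ≤ Real.exp (-((t : ℝ) / (4 * q))) := by
    have h1 := Real.add_one_le_exp (-(1 / (4 * (q : ℝ))))
    have h3 : 0 ≤ 1 - 1 / (4 * (q : ℝ)) := by
      rw [sub_nonneg, div_le_one (by positivity)]
      linarith
    calc (1 - 1 / (4 * (q : ℝ))) ^ t ≤ Real.exp (-(1 / (4 * (q : ℝ)))) ^ t :=
          pow_le_pow_left₀ h3 (by linarith) t
      _ = Real.exp (-((t : ℝ) / (4 * q))) := by
          rw [← Real.exp_nat_mul]
          congr 1
          ring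
  have hsmall : 1 / (4 * (q : ℝ)) ≤ 1 / 2 := by
    apply one_div_le_one_div_of_le (by norm_num)
    linarith
  have hsmall0 : 0 ≤ 1 / (4 * (q : ℝ)) := by positivity
  have hsmall2 : 1 / (2 * (q : ℝ)) ≤ 1 / 2 := by
    apply one_div_le_one_div_of_le (by norm_num)
    linarith
  have hsmall20 : 0 ≤ 1 / (2 * (q : ℝ)) := by positivity
  have hR0 : (0 : ℝ) ≤ (R : ℝ) / (q : ℝ) ^ 2 := by positivity
  have hRa : R = 2 * (q - 1) → (R : ℝ) / (q : ℝ) ^ 2 ≤ 2 / q := by
    intro h
    rw [h]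
    push_cast
    rw [hq1, div_le_div_iff₀ (by positivity) hq0]
    nlinarith
  have hRb : R + 2 * (q - 1) = q ^ 2 → (R : ℝ) / (q : ℝ) ^ 2 ≤ 1 - 3 / (2 * q) := by
    intro h
    have h1 : (R : ℝ) + 2 * ((q : ℝ) - 1) = (q : ℝ) ^ 2 := by
      rw [← hq1]; exact_mod_cast h
    have h2 : (R : ℝ) = (q : ℝ) ^ 2 - 2 * ((q : ℝ) - 1) := by linarith
    rw [h2, div_le_iff₀ (by positivity)]
    have h3 : (1 - 3 / (2 * (q : ℝ))) * (q : ℝ) ^ 2 = (q : ℝ) ^ 2 - 3 / 2 * q := by
      field_simp
    rw [h3]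
    linarith
  have hlarge : (1 : ℝ) - 3 / (4 * q) ≤ (1 - 1 / (2 * (q : ℝ))) * (1 - 1 / (4 * (q : ℝ))) := by
    have h1 : 3 / (4 * (q : ℝ)) = 1 / (2 * (q : ℝ)) + 1 / (4 * (q : ℝ)) := by
      field_simp; norm_num
    rw [h1]
    nlinarith [mul_nonneg hsmall20 hsmall0]
  have h34 : (1 : ℝ) - 3 / (2 * q) ≤ 1 - 3 / (4 * q) := by
    have : 3 / (4 * (q : ℝ)) ≤ 3 / (2 * (q : ℝ)) := by
      apply div_le_div_of_nonneg_left (by norm_num) (by positivity)
      linarith
    linarith
  rcases hR with ⟨h1, h2⟩ | ⟨h1, h2⟩ | ⟨h1, h2⟩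
  · rw [if_pos h1]
    calc ((R : ℝ) / (q : ℝ) ^ 2) ^ t ≤ ((8 / (q : ℝ)) * (1 - 1 / (4 * (q : ℝ)))) ^ t := by
          apply pow_le_pow_left₀ hR0
          refine le_trans (hRa h2) ?_
          have h8 : 2 / (q : ℝ) = (8 / (q : ℝ)) * (1 / 4) := by ring
          rw [h8]
          apply mul_le_mul_of_nonneg_left _ (by positivity)
          linarith
      _ = (8 / (q : ℝ)) ^ t * (1 - 1 / (4 * (q : ℝ))) ^ t := mul_pow _ _ _
      _ ≤ _ := mul_le_mul_of_nonneg_left hexp (by positivity)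
  · rw [if_neg h1]
    have h5 : 0 ≤ 1 - 1 / (2 * (q : ℝ)) := by linarith
    calc ((R : ℝ) / (q : ℝ) ^ 2) ^ t ≤
          ((1 - 1 / (2 * (q : ℝ))) * (1 - 1 / (4 * (q : ℝ)))) ^ t := by
          apply pow_le_pow_left₀ hR0
          refine le_trans (hRa h2) ?_
          refine le_trans ?_ hlarge
          have h6 : 2 / (q : ℝ) ≤ 1 / 4 := by
            rw [div_le_div_iff₀ hq0 (by norm_num)]; linarith
          have h7 : 3 / (4 * (q : ℝ)) ≤ 1 / 4 := by
            rw [div_le_div_iff₀ (by positivity) (by norm_num)]; linarith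
          linarith
      _ = (1 - 1 / (2 * (q : ℝ))) ^ t * (1 - 1 / (4 * (q : ℝ))) ^ t := mul_pow _ _ _
      _ ≤ _ := mul_le_mul_of_nonneg_left hexp (by positivity)
  · rw [if_neg h1]
    have h5 : 0 ≤ 1 - 1 / (2 * (q : ℝ)) := by linarith
    calc ((R : ℝ) / (q : ℝ) ^ 2) ^ t ≤
          ((1 - 1 / (2 * (q : ℝ))) * (1 - 1 / (4 * (q : ℝ)))) ^ t := by
          apply pow_le_pow_left₀ hR0
          exact le_trans (hRb h2) (le_trans h34 hlarge)
      _ = (1 - 1 / (2 * (q : ℝ))) ^ t * (1 - 1 / (4 * (q : ℝ))) ^ t := mul_pow _ _ _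
      _ ≤ _ := mul_le_mul_of_nonneg_left hexp (by positivity)

/-- weights are at most one half -/
lemma XX_le_half (S q : ℕ) (hq : 23000 ≤ q) (hqS : q ^ 2 ≤ S)
    (h12 : ∀ u v, u ≠ v → ¬ G.Adj u v → 12 ≤ t G u v) (p : V × V) : XX G S q p ≤ 1 / 2 := by
  have hqR : (23000 : ℝ) ≤ q := by exact_mod_cast hq
  have hq0 : (0 : ℝ) < q := by linarith
  unfold XX
  split_ifs with hc ht
  · have h1 := h12 p.1 p.2 hc.1 hc.2
    calc (8 / (q : ℝ)) ^ (t G p.1 p.2) ≤ (8 / (q : ℝ)) ^ 1 := by
          apply pow_le_pow_of_le_one (by positivity) _ (by omega)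
          rw [div_le_one hq0]; linarith
      _ ≤ 1 / 2 := by
          rw [pow_one, div_le_div_iff₀ hq0 (by norm_num)]; linarith
  · have h1 := weight2_le q (t G p.1 p.2) (by omega) (by omega)
    refine le_trans h1 ?_
    have h2 : (23000 ^ 2 : ℝ) ≤ t G p.1 p.2 := by
      have : 23000 ^ 2 ≤ t G p.1 p.2 := by
        have h3 : 23000 ^ 2 ≤ q ^ 2 := Nat.pow_le_pow_left hq 2
        omega
      exact_mod_cast this
    rw [mul_one_div, div_le_div_iff₀ (by positivity) (by norm_num)]
    have h4 : (23000 ^ 2 : ℝ) ^ 4 ≤ (t G p.1 p.2 : ℝ) ^ 4 := pow_le_pow_left₀ (by norm_num) h2 4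
    have h5 : (10321920 * 2 : ℝ) ≤ (23000 ^ 2 : ℝ) ^ 4 := by norm_num
    linarith
  · norm_num

/-- existence of the colouring -/
theorem colouring_exists [Nonempty V] (hdeg : ∀ u, Fintype.card V ≤ 2 * (nb G u).card)
    (htB : ∀ u v, u ≠ v → ¬ G.Adj u v → 2 ^ 29 ≤ t G u v) :
    ∃ col : Sym2 V → Bool, ∀ u v, u ≠ v → ¬ G.Adj u v →
      ∃ w, G.Adj u w ∧ G.Adj v w ∧ col s(u, w) ≠ col s(v, w) := by
  classical
  obtain ⟨S, f, hBS, hf, hD⟩ := scale_lemma hdeg (2 ^ 29) (by norm_num) htB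
  set q := Nat.sqrt S with hqd
  have hqS : q ^ 2 ≤ S := by rw [pow_two]; exact Nat.sqrt_le S
  have hSq : S < (q + 1) ^ 2 := Nat.lt_succ_sqrt' S
  have hq : 23000 ≤ q := by
    by_contra hcon
    push Not at hcon
    have h1 : (q + 1) ^ 2 ≤ 23000 ^ 2 := Nat.pow_le_pow_left (by omega) 2
    have h2 : (2 : ℕ) ^ 29 = 536870912 := by norm_num
    omega
  haveI : NeZero q := ⟨by omega⟩
  have h12 : ∀ u v, u ≠ v → ¬ G.Adj u v → 12 ≤ t G u v := by
    intro u v h1 h2
    have := htB u v h1 h2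
    have h3 : (2 : ℕ) ^ 29 = 536870912 := by norm_num
    omega
  have hqR : (23000 : ℝ) ≤ q := by exact_mod_cast hq
  have hq0 : (0 : ℝ) < q := by linarith
  obtain ⟨ω, hω⟩ := lll_exp (κ := Sym2 V) (α := Fin q) (EV G f q) (FF G) (EV_dep f q)
    (XX G S q) (XX_nonneg S q (by omega)) (XX_le_half S q hq hqS h12)
    (4 * (1 / (64 * (q : ℝ))))
    (XX_edge S q (by omega) _ (XX_sum S q hq hqS hSq h12 hD)) (by
      intro p
      by_cases hc : p.1 ≠ p.2 ∧ ¬ G.Adj p.1 p.2
      · have hcard := EV_card f q p hc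
        have hF := FF_card p hc
        set T := t G p.1 p.2 with hT
        have hcardR : ((EV G f q p).card : ℝ) * ((q : ℝ) ^ 2) ^ T =
            ((RR q (f p.1) (f p.2)).card : ℝ) ^ T * Fintype.card (Sym2 V → Fin q) := by
          exact_mod_cast hcard
        have h1 : ((EV G f q p).card : ℝ) =
            (((RR q (f p.1) (f p.2)).card : ℝ) / (q : ℝ) ^ 2) ^ T *
              Fintype.card (Sym2 V → Fin q) := by
          rw [div_pow, div_mul_eq_mul_div, ← hcardR, mul_div_assoc, div_self (by positivity),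
            mul_one]
        rw [h1]
        apply mul_le_mul_of_nonneg_right _ (by positivity)
        refine le_trans (weight_ok q T S _ hq ?_) ?_
        · by_cases hff : f p.1 = f p.2
          · right; right
            refine ⟨?_, ?_⟩
            · intro hlt
              exact hf p.1 p.2 hc.1 hc.2 hlt hff
            · rw [hff]
              exact RR_eq q (f p.2)
          · by_cases hlt : T < S
            · left; exact ⟨hlt, RR_ne q hff⟩
            · right; left; exact ⟨hlt, RR_ne q hff⟩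
        · unfold XX
          rw [if_pos hc]
          apply mul_le_mul_of_nonneg_left
          · apply Real.exp_le_exp.mpr
            have h2 : ((FF G p).card : ℝ) ≤ 2 * T := by exact_mod_cast hF
            have h3 : 2 * (((FF G p).card : ℝ) * (4 * (1 / (64 * (q : ℝ))))) =
                ((FF G p).card : ℝ) / (8 * q) := by
              field_simp; ring
            rw [h3]
            have h4 : ((FF G p).card : ℝ) / (8 * q) ≤ (T : ℝ) / (4 * q) := by
              rw [div_le_div_iff₀ (by positivity) (by positivity)]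
              nlinarith
            linarith
          · have h5 := XX_nonneg (G := G) S q (by omega) p
            unfold XX at h5
            rw [if_pos hc] at h5
            exact h5
      · unfold EV
        rw [if_neg hc]
        simp only [card_empty, Nat.cast_zero]
        have := XX_nonneg (G := G) S q (by omega) p
        positivity)
  refine ⟨fun e => xor (Sym2.lift ⟨fun a b => xor (f a) (f b), fun a b => Bool.xor_comm _ _⟩ e)
    (decide (ω e = 0)), ?_⟩
  intro u v huv hadj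
  have h1 := hω (u, v)
  unfold EV at h1
  rw [if_pos ⟨huv, hadj⟩] at h1
  simp only [mem_filter, mem_univ, true_and, not_forall] at h1
  obtain ⟨w, hw, h2⟩ := h1
  have hw' : G.Adj u w ∧ G.Adj v w := by simpa [W] using hw
  refine ⟨w, hw'.1, hw'.2, ?_⟩
  simp only [RR, mem_filter, mem_univ, true_and] at h2
  simp only [Sym2.lift_mk]
  intro h3
  apply h2
  revert h3
  generalize decide (ω s(u, w) = 0) = x
  generalize decide (ω s(v, w) = 0) = y
  cases f u <;> cases f v <;> cases f w <;> cases x <;> cases y <;> simp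

end Pool.Agent.Helper208.Rainbow
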